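import Mathlib

set_option autoImplicit false

namespace Pool.Agent.Y239.PS

open Finset

/-- vectors of natural numbers with `p 0 + ... + p k ≤ a + t k` -/
def B (n t a : ℕ) : Set (Fin n → ℕ) :=
  {p | ∀ k : Fin n, ∑ i ∈ Iic k, p i ≤ a + t * k}

theorem sum_Iic_cons {n : ℕ} (j : ℕ) (q : Fin n → ℕ) (k : Fin n) :
    ∑ i ∈ Iic k.succ, (Fin.cons j q : Fin (n+1) → ℕ) i = j + ∑ i ∈ Iic k, q i := by
  have h : (Iic k.succ : Finset (Fin (n+1))) = insert 0 ((Iic k).map ⟨Fin.succ, Fin.succ_injective n⟩) := by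
    ext x
    simp only [mem_Iic, mem_insert, mem_map, Function.Embedding.coeFn_mk]
    constructor
    · intro hx
      rcases Fin.eq_zero_or_eq_succ x with rfl | ⟨y, rfl⟩
      · exact Or.inl rfl
      · exact Or.inr ⟨y, Fin.succ_le_succ_iff.1 hx, rfl⟩
    · rintro (rfl | ⟨y, hy, rfl⟩)
      · exact Fin.zero_le _
      · exact Fin.succ_le_succ_iff.2 hy
  rw [h, sum_insert, sum_map]
  · simp
  · simp [Fin.succ_ne_zero]

theorem sum_Iic_zero {n : ℕ} (p : Fin (n+1) → ℕ) : ∑ i ∈ Iic (0 : Fin (n+1)), p i = p 0 := by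
  have : (Iic (0 : Fin (n+1))) = {0} := by
    ext x; simp
  rw [this, sum_singleton]

theorem cons_mem {n t a : ℕ} (j : ℕ) (q : Fin n → ℕ) :
    (Fin.cons j q : Fin (n+1) → ℕ) ∈ B (n+1) t a ↔ j ≤ a ∧ q ∈ B n t (a - j + t) := by
  constructor
  · intro h
    have h0 : j ≤ a := by
      have := h 0
      rw [sum_Iic_zero] at this
      simpa using this
    refine ⟨h0, fun k => ?_⟩
    have := h k.succ
    rw [sum_Iic_cons, Fin.val_succ] at this
    have e : t * ((k:ℕ) + 1) = t * k + t := by ring
    omega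
  · rintro ⟨h0, h⟩ k
    rcases Fin.eq_zero_or_eq_succ k with rfl | ⟨y, rfl⟩
    · rw [sum_Iic_zero]; simpa using h0
    · rw [sum_Iic_cons, Fin.val_succ]
      have := h y
      have e : t * ((y:ℕ) + 1) = t * y + t := by ring
      omega

theorem B_zero_a (n t : ℕ) : B (n+1) t 0 = (fun q : Fin n → ℕ => (Fin.cons 0 q : Fin (n+1) → ℕ)) '' B n t t := by
  ext p
  simp only [Set.mem_image]
  constructor
  · intro hp
    rw [← Fin.cons_self_tail p, cons_mem] at hp
    have h0 : p 0 = 0 := Nat.le_zero.1 hp.1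
    refine ⟨Fin.tail p, ?_, ?_⟩
    · have := hp.2
      rw [h0] at this
      simpa using this
    · rw [← h0]; exact Fin.cons_self_tail p
  · rintro ⟨q, hq, rfl⟩
    rw [cons_mem]
    simpa using hq

/-- add one to the first coordinate -/
def up {n : ℕ} (p : Fin (n+1) → ℕ) : Fin (n+1) → ℕ := Fin.cons (p 0 + 1) (Fin.tail p)

theorem up_inj {n : ℕ} : Function.Injective (up (n := n)) := by
  intro p q h
  unfold up at h
  have h1 := Fin.cons_injective2 h
  have h2 : p 0 = q 0 := by omega
  rw [← Fin.cons_self_tail p, ← Fin.cons_self_tail q, h2, h1.2]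

theorem B_succ_a (n t a : ℕ) : B (n+1) t (a+1) =
    ((fun q : Fin n → ℕ => (Fin.cons 0 q : Fin (n+1) → ℕ)) '' B n t (a + 1 + t)) ∪ (up '' B (n+1) t a) := by
  ext p
  simp only [Set.mem_image, Set.mem_union]
  constructor
  · intro hp
    rw [← Fin.cons_self_tail p, cons_mem] at hp
    rcases Nat.eq_zero_or_pos (p 0) with h0 | h0
    · left
      refine ⟨Fin.tail p, ?_, ?_⟩
      · have := hp.2
        rw [h0] at this
        simpa using this
      · rw [← h0]; exact Fin.cons_self_tail p
    · right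
      refine ⟨Fin.cons (p 0 - 1) (Fin.tail p), ?_, ?_⟩
      · rw [cons_mem]
        refine ⟨by omega, ?_⟩
        have h2 := hp.2
        have e : a + 1 - p 0 + t = a - (p 0 - 1) + t := by omega
        rwa [e] at h2
      · unfold up
        rw [Fin.cons_zero, Fin.tail_cons]
        have e : p 0 - 1 + 1 = p 0 := by omega
        rw [e]; exact Fin.cons_self_tail p
  · rintro (⟨q, hq, rfl⟩ | ⟨q, hq, rfl⟩)
    · rw [cons_mem]
      simpa using hq
    · unfold up
      rw [cons_mem]
      rw [← Fin.cons_self_tail q, cons_mem] at hq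
      refine ⟨by omega, ?_⟩
      have h2 := hq.2
      have e : a + 1 - (q 0 + 1) + t = a - q 0 + t := by omega
      rwa [e]

theorem B_disj (n t a : ℕ) : Disjoint
    ((fun q : Fin n → ℕ => (Fin.cons 0 q : Fin (n+1) → ℕ)) '' B n t (a + 1 + t)) (up '' B (n+1) t a) := by
  rw [Set.disjoint_left]
  rintro _ ⟨q, _, rfl⟩ ⟨q', _, h⟩
  have := congrFun h 0
  simp [up] at this

theorem B_zero (t a : ℕ) : B 0 t a = Set.univ := by
  ext p
  simp only [Set.mem_univ, iff_true]
  intro k
  exact k.elim0

theorem B_finite (n t : ℕ) : ∀ a, (B n t a).Finite := by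
  induction n with
  | zero => intro a; rw [B_zero]; exact Set.finite_univ
  | succ n ih =>
    intro a
    induction a with
    | zero => rw [B_zero_a]; exact (ih t).image _
    | succ a iha => rw [B_succ_a]; exact ((ih _).image _).union (iha.image _)

theorem cons0_inj {n : ℕ} : Function.Injective (fun q : Fin n → ℕ => (Fin.cons 0 q : Fin (n+1) → ℕ)) := by
  intro p q h
  exact (Fin.cons_injective2 h).2

theorem card_zero_a (n t : ℕ) : (B (n+1) t 0).ncard = (B n t t).ncard := by
  rw [B_zero_a, Set.ncard_image_of_injective _ cons0_inj]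

theorem card_succ_a (n t a : ℕ) :
    (B (n+1) t (a+1)).ncard = (B n t (a+1+t)).ncard + (B (n+1) t a).ncard := by
  rw [B_succ_a, Set.ncard_union_eq (B_disj n t a) ((B_finite _ _ _).image _) ((B_finite _ _ _).image _),
    Set.ncard_image_of_injective _ cons0_inj, Set.ncard_image_of_injective _ up_inj]

theorem card_zero (t a : ℕ) : (B 0 t a).ncard = 1 := by
  rw [B_zero, Set.ncard_univ, Nat.card_unique]

theorem card_formula (t m : ℕ) : ∀ a, (m+1).factorial * (B (m+1) t a).ncard =
    (a+1) * (a + (m+1)*(t+1)).descFactorial m := by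
  induction m with
  | zero =>
    intro a
    induction a with
    | zero => rw [card_zero_a, card_zero]; simp
    | succ a iha =>
      rw [card_succ_a, card_zero]
      simp at iha ⊢
      omega
  | succ m ih =>
    intro a
    induction a with
    | zero =>
      rw [card_zero_a, Nat.factorial_succ, mul_assoc, ih t]
      have e : 0 + (m + 1 + 1) * (t + 1) = (t + (m+1)*(t+1)) + 1 := by ring
      rw [e, Nat.succ_descFactorial_succ]
      ring
    | succ a iha =>
      rw [card_succ_a, mul_add, iha, Nat.factorial_succ, mul_assoc, ih]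
      have e1 : a + 1 + t + (m+1)*(t+1) = a + (m+1+1)*(t+1) := by ring
      have e2 : a + 1 + (m+1+1)*(t+1) = a + (m+1+1)*(t+1) + 1 := by ring
      rw [e1, e2, Nat.succ_descFactorial_succ, Nat.descFactorial_succ]
      set N := a + (m+1+1)*(t+1) with hN
      obtain ⟨d, hd⟩ : ∃ d, N = m + d := ⟨a + (m+1+1)*(t+1) - m, by
        have : m ≤ a + (m+1+1)*(t+1) := by nlinarith
        omega⟩
      have e3 : N - m = d := by omega
      rw [e3]
      have key : (m+1+1) * (a + 1 + t + 1) + (a+1) * d = (a+1+1) * (N+1) := by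
        have hd' : a + (m+1+1)*(t+1) = m + d := by rw [← hN]; exact hd
        have hd2 : d + m = a + (m+1+1)*(t+1) := by omega
        zify at hd2 hN ⊢
        rw [hN]
        have hd3 : (d:ℤ) = a + (m+1+1)*(t+1) - m := by linarith
        rw [hd3]; ring
      calc (m + 1 + 1) * ((a + 1 + t + 1) * N.descFactorial m) + (a + 1) * (d * N.descFactorial m)
          = ((m+1+1) * (a + 1 + t + 1) + (a+1) * d) * N.descFactorial m := by ring
        _ = _ := by rw [key]; ring

end Pool.Agent.Y239.PS
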