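import Mathlib

set_option autoImplicit false

namespace Pool.Agent.Y239.PS

open Finset Polynomial Filter

/-- the step from the numerator of `∑ g(t) X^t` to the numerator of `∑ (t+a) g(t) X^t` -/
noncomputable def step (a : ℝ) (k : ℕ) (h : ℝ[X]) : ℝ[X] :=
  X * (1 - X) * derivative h + (C a + C (k + 1 - a) * X) * h

/-- `h` has leading coefficient positive and exactly `m` distinct negative roots, in terms of
its factorisation -/
def Good (m : ℕ) (h : ℝ[X]) : Prop :=
  ∃ (c : ℝ) (r : ℕ → ℝ), 0 < c ∧ (∀ i j, i < j → j < m → r j < r i) ∧ (∀ i, i < m → r i < 0) ∧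
    h = C c * ∏ i ∈ range m, (X - C (r i))

theorem sign_prod {m i : ℕ} {r : ℕ → ℝ} (hr : ∀ i j, i < j → j < m → r j < r i) (hi : i < m) :
    0 < (-1:ℝ) ^ i * ∏ j ∈ (range m).erase i, (r i - r j) := by
  have h1 : (-1:ℝ) ^ i = ∏ j ∈ (range m).erase i, (if j < i then (-1:ℝ) else 1) := by
    rw [prod_ite, prod_const, prod_const_one, mul_one]
    congr 1
    have : filter (fun j => j < i) ((range m).erase i) = range i := by
      ext x
      simp only [mem_filter, mem_erase, mem_range]
      omega
    rw [this, card_range]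
  rw [h1, ← prod_mul_distrib]
  apply prod_pos
  intro j hj
  rw [mem_erase, mem_range] at hj
  split_ifs with h
  · have := hr j i h hi
    linarith
  · have := hr i j (by omega) hj.2
    linarith

theorem eval_prod_root {m i : ℕ} {r : ℕ → ℝ} (hi : i < m) :
    eval (r i) (∏ j ∈ range m, (X - C (r j))) = 0 := by
  rw [eval_prod]
  exact prod_eq_zero (mem_range.2 hi) (by simp)

theorem eval_deriv_prod {m i : ℕ} {r : ℕ → ℝ} (hi : i < m) :
    eval (r i) (derivative (∏ j ∈ range m, (X - C (r j)))) =
      ∏ j ∈ (range m).erase i, (r i - r j) := by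
  have h : (∏ j ∈ range m, (X - C (r j))) = (X - C (r i)) * ∏ j ∈ (range m).erase i, (X - C (r j)) :=
    (mul_prod_erase _ _ (mem_range.2 hi)).symm
  rw [h, derivative_mul]
  simp [eval_prod]

theorem prod_monic (m : ℕ) (r : ℕ → ℝ) : (∏ j ∈ range m, (X - C (r j))).Monic :=
  monic_prod_of_monic _ _ fun _ _ => monic_X_sub_C _

theorem prod_natDegree (m : ℕ) (r : ℕ → ℝ) : (∏ j ∈ range m, (X - C (r j))).natDegree = m := by
  rw [natDegree_prod_of_monic _ _ fun _ _ => monic_X_sub_C _]
  simp

theorem natDegree_good {m : ℕ} {h : ℝ[X]} {c : ℝ} {r : ℕ → ℝ} (hc : 0 < c)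
    (hh : h = C c * ∏ i ∈ range m, (X - C (r i))) : h.natDegree = m := by
  rw [hh, natDegree_C_mul hc.ne', prod_natDegree]

theorem coeff_good {m : ℕ} {h : ℝ[X]} {c : ℝ} {r : ℕ → ℝ}
    (hh : h = C c * ∏ i ∈ range m, (X - C (r i))) : h.coeff m = c := by
  have h1 := (prod_monic m r).coeff_natDegree
  rw [prod_natDegree] at h1
  rw [hh, coeff_C_mul, h1, mul_one]

theorem step_coeff (a : ℝ) (k m : ℕ) (h : ℝ[X]) (hm : h.natDegree ≤ m) :
    (step a k h).coeff (m+1) = (k + 1 - a - m) * h.coeff m := by
  have h1 : h.coeff (m+1) = 0 := coeff_eq_zero_of_natDegree_lt (by omega)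
  have h2 : (X * (1 - X) * derivative h : ℝ[X]) = X * derivative h - X * (X * derivative h) := by ring
  have h3 : ((C a + C ((k:ℝ) + 1 - a) * X) * h : ℝ[X]) = C a * h + C ((k:ℝ) + 1 - a) * (X * h) := by ring
  unfold step
  rw [h2, h3, coeff_add, coeff_sub, coeff_X_mul, coeff_X_mul, coeff_add, coeff_C_mul, coeff_C_mul,
    coeff_X_mul, coeff_derivative, h1]
  cases m with
  | zero => simp
  | succ m => rw [coeff_X_mul, coeff_derivative]; push_cast; ring

theorem step_natDegree_le (a : ℝ) (k m : ℕ) (h : ℝ[X]) (hm : h.natDegree ≤ m) :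
    (step a k h).natDegree ≤ m + 1 := by
  rw [natDegree_le_iff_coeff_eq_zero]
  intro N hN
  have h1 : ∀ j, m < j → h.coeff j = 0 := fun j hj => coeff_eq_zero_of_natDegree_lt (by omega)
  have h2 : (X * (1 - X) * derivative h : ℝ[X]) = X * derivative h - X * (X * derivative h) := by ring
  have h3 : ((C a + C ((k:ℝ) + 1 - a) * X) * h : ℝ[X]) = C a * h + C ((k:ℝ) + 1 - a) * (X * h) := by ring
  unfold step
  obtain ⟨N, rfl⟩ : ∃ N', N = N' + 2 := ⟨N - 2, by omega⟩
  rw [h2, h3, coeff_add, coeff_sub, coeff_X_mul, coeff_X_mul, coeff_add, coeff_C_mul, coeff_C_mul,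
    coeff_X_mul, coeff_X_mul, coeff_derivative, coeff_derivative, h1 _ (by omega), h1 _ (by omega)]
  simp

/-- a polynomial with alternating signs at given points has that many roots -/
theorem roots_between {p : ℝ[X]} {N : ℕ} {b : ℕ → ℝ} (hb : ∀ i, i < N → b (i+1) < b i)
    (hs : ∀ i, i ≤ N → 0 < (-1:ℝ)^i * eval (b i) p) :
    ∃ s : ℕ → ℝ, ∀ i, i < N → b (i+1) < s i ∧ s i < b i ∧ eval (s i) p = 0 := by
  have : ∀ i, i < N → ∃ x, b (i+1) < x ∧ x < b i ∧ eval x p = 0 := by
    intro i hi
    have h0 := hs i hi.le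
    have h1 := hs (i+1) hi
    have hlt := hb i hi
    have hcont : ContinuousOn (fun x => (-1:ℝ)^i * eval x p) (Set.Icc (b (i+1)) (b i)) := by
      fun_prop
    have h1' : (-1:ℝ)^i * eval (b (i+1)) p < 0 := by
      rw [pow_succ] at h1; linarith
    obtain ⟨x, hx, hx0⟩ := intermediate_value_Ioo hlt.le hcont ⟨h1', h0⟩
    refine ⟨x, hx.1, hx.2, ?_⟩
    have h3 : (-1:ℝ)^i ≠ 0 := pow_ne_zero _ (by norm_num)
    simpa [h3] using hx0
  choose! s hs' using this
  exact ⟨s, hs'⟩

theorem good_of_signs {p : ℝ[X]} {m : ℕ} (hdeg : p.natDegree ≤ m + 1) (hlead : 0 < p.coeff (m+1))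
    {b : ℕ → ℝ} (hb : ∀ i, i < m → b (i+1) < b i) (hb0 : b 0 ≤ 0)
    (hs : ∀ i, i ≤ m → 0 < (-1:ℝ)^i * eval (b i) p) : Good (m+1) p := by
  have hdeg' : p.natDegree = m + 1 := by
    refine le_antisymm hdeg (le_natDegree_of_ne_zero hlead.ne')
  have hp0 : p ≠ 0 := by
    rintro rfl
    simp at hlead
  have hlc : p.leadingCoeff = p.coeff (m+1) := by rw [leadingCoeff, hdeg']
  -- a point far left
  have hq : ∃ L : ℝ, L < b m ∧ 0 < (-1:ℝ)^(m+1) * eval L p := by
    set q : ℝ[X] := C ((-1:ℝ)^(m+1)) * p.comp (-X) with hq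
    have hqd : q.natDegree = m + 1 := by
      rw [hq, natDegree_C_mul (pow_ne_zero _ (by norm_num)), natDegree_comp, natDegree_neg,
        natDegree_X, mul_one, hdeg']
    have hql : q.leadingCoeff = p.coeff (m+1) := by
      rw [hq, leadingCoeff_mul, leadingCoeff_C, leadingCoeff_comp (by simp), leadingCoeff_neg,
        leadingCoeff_X, hdeg', hlc, mul_comm, mul_assoc, ← mul_pow]
      simp
    have ht : Tendsto (fun x => eval x q) atTop atTop := by
      apply tendsto_atTop_of_leadingCoeff_nonneg
      · rw [degree_eq_natDegree (by intro h; rw [h] at hqd; simp at hqd), hqd]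
        exact_mod_cast Nat.succ_pos m
      · rw [hql]; exact hlead.le
    obtain ⟨x, hx1, hx2⟩ := ((ht.eventually (eventually_gt_atTop 0)).and
      (eventually_gt_atTop (-b m))).exists
    refine ⟨-x, by linarith, ?_⟩
    have : eval x q = (-1:ℝ)^(m+1) * eval (-x) p := by
      rw [hq]; simp [eval_comp]
    rw [← this]; exact hx1
  obtain ⟨L, hL, hL'⟩ := hq
  set b' : ℕ → ℝ := fun i => if i ≤ m then b i else L with hb'
  have hb1 : ∀ i, i < m + 1 → b' (i+1) < b' i := by
    intro i hi
    simp only [hb']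
    by_cases h : i + 1 ≤ m
    · rw [if_pos h, if_pos (by omega)]; exact hb i (by omega)
    · rw [if_neg h, if_pos (by omega)]
      have : i = m := by omega
      rw [this]; exact hL
  have hb2 : ∀ i, i ≤ m + 1 → 0 < (-1:ℝ)^i * eval (b' i) p := by
    intro i hi
    simp only [hb']
    by_cases h : i ≤ m
    · rw [if_pos h]; exact hs i h
    · rw [if_neg h]
      have : i = m + 1 := by omega
      rw [this]; exact hL'
  obtain ⟨s, hs'⟩ := roots_between hb1 hb2
  have hb0' : b' 0 ≤ 0 := by simpa [hb'] using hb0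
  have hanti : ∀ i j, i < j → j < m + 1 → s j < s i := by
    intro i j hij
    induction j, hij using Nat.le_induction with
    | base => intro hj; exact (hs' (i+1) hj).2.1.trans (hs' i (by omega)).1
    | succ j hij ih =>
      intro hj
      exact ((hs' (j+1) hj).2.1.trans (hs' j (by omega)).1).trans (ih (by omega))
  have hneg : ∀ i, i < m + 1 → s i < 0 := by
    intro i hi
    rcases Nat.eq_zero_or_pos i with rfl | h
    · exact (hs' 0 hi).2.1.trans_le hb0'
    · exact (hanti 0 i h hi).trans ((hs' 0 (by omega)).2.1.trans_le hb0')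
  refine ⟨p.coeff (m+1), s, hlead, hanti, hneg, ?_⟩
  set S : Multiset ℝ := (range (m+1)).val.map s with hS
  have hnd : S.Nodup := by
    rw [hS]
    refine (Finset.nodup _).map_on ?_
    intro x hx y hy hxy
    have hx' : x < m + 1 := Finset.mem_range.1 hx
    have hy' : y < m + 1 := Finset.mem_range.1 hy
    rcases lt_trichotomy x y with h | h | h
    · exact absurd hxy (hanti x y h hy').ne'
    · exact h
    · exact absurd hxy (hanti y x h hx').ne
  have hle : S ≤ p.roots := by
    rw [Multiset.le_iff_subset hnd]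
    intro x hx
    rw [hS, Multiset.mem_map] at hx
    obtain ⟨i, hi, rfl⟩ := hx
    rw [mem_roots hp0]
    exact (hs' i (Finset.mem_range.1 hi)).2.2
  have hcard : Multiset.card p.roots ≤ Multiset.card S := by
    have h1 : Multiset.card S = m + 1 := by simp [hS]
    rw [h1, ← hdeg']; exact card_roots' p
  have heq : S = p.roots := Multiset.eq_of_le_of_card_le hle hcard
  have hcard' : Multiset.card p.roots = p.natDegree := by
    rw [← heq, hdeg', hS]; simp
  have hfin := C_leadingCoeff_mul_prod_multiset_X_sub_C hcard'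
  rw [← heq, hS, Multiset.map_map, hlc] at hfin
  exact hfin.symm

theorem good_step {a : ℝ} (ha0 : 0 < a) (ha1 : a ≤ 1) {m : ℕ} {h : ℝ[X]} (hg : Good m h) :
    Good (m+1) (step a (m+1) h) := by
  obtain ⟨c, r, hc, hr, hneg, hh⟩ := hg
  have hnd := natDegree_good hc hh
  have hcf := coeff_good hh
  refine good_of_signs (step_natDegree_le a (m+1) m h hnd.le) ?_
    (b := fun i => match i with | 0 => 0 | i+1 => r i) ?_ le_rfl ?_
  · rw [step_coeff a (m+1) m h hnd.le, hcf]
    push_cast
    have : (m:ℝ) + 1 + 1 - a - m = 2 - a := by ring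
    rw [this]
    exact mul_pos (by linarith) hc
  · intro i hi
    cases i with
    | zero => exact hneg 0 hi
    | succ i => exact hr i (i+1) (by omega) hi
  · intro i hi
    cases i with
    | zero =>
      simp only [pow_zero, one_mul, step, hh]
      simp only [eval_add, eval_mul, eval_X, eval_sub, eval_one, eval_C, mul_zero, zero_mul, add_zero,
        zero_add, eval_prod, zero_sub]
      refine mul_pos ha0 (mul_pos hc (prod_pos fun i hi => ?_))
      have := hneg i (mem_range.1 hi)
      linarith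
    | succ i =>
      have hi' : i < m := by omega
      have h1 : eval (r i) h = 0 := by
        rw [hh, eval_mul, eval_prod_root hi', mul_zero]
      have h2 : eval (r i) (derivative h) = c * ∏ j ∈ (range m).erase i, (r i - r j) := by
        rw [hh, derivative_C_mul, eval_mul, eval_C, eval_deriv_prod hi']
      have h3 : eval (r i) (step a (m+1) h) = r i * (1 - r i) *
          (c * ∏ j ∈ (range m).erase i, (r i - r j)) := by
        unfold step
        rw [eval_add, eval_mul, eval_mul (p := C a + _), h1, mul_zero, add_zero, h2]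
        simp
      have h4 := sign_prod hr hi'
      have h5 := hneg i hi'
      show 0 < (-1:ℝ)^(i+1) * eval (r i) (step a (m+1) h)
      rw [h3, pow_succ]
      have h6 : (-1:ℝ)^i * -1 * (r i * (1 - r i) * (c * ∏ j ∈ (range m).erase i, (r i - r j))) =
          (-r i) * (1 - r i) * c * ((-1:ℝ)^i * ∏ j ∈ (range m).erase i, (r i - r j)) := by ring
      rw [h6]
      have : 0 < -r i := by linarith
      have : 0 < 1 - r i := by linarith
      positivity

end Pool.Agent.Y239.PS
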