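import Pool.Agent.Y239.PS.Count
import Pool.Agent.Y239.PS.Roots

set_option autoImplicit false

namespace Pool.Agent.Y239.PS

open Finset

/-- numerators of the generating functions of `∏_{j<k} (t + a_j)` -/
noncomputable def H (a : ℕ → ℝ) : ℕ → Polynomial ℝ
  | 0 => 1
  | k+1 => step (a k) k (H a k)

theorem coe_step (a : ℝ) (k : ℕ) (h : Polynomial ℝ) :
    (step a k h : PowerSeries ℝ) = PowerSeries.X * (1 - PowerSeries.X) *
      PowerSeries.derivative ℝ (h : PowerSeries ℝ) +
      (PowerSeries.C a + PowerSeries.C ((k:ℝ) + 1 - a) * PowerSeries.X) * (h : PowerSeries ℝ) := by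
  unfold step
  rw [PowerSeries.derivative_coe]
  simp only [Polynomial.coe_add, Polynomial.coe_mul, Polynomial.coe_sub, Polynomial.coe_one,
    Polynomial.coe_X, Polynomial.coe_C]

theorem H_series (a : ℕ → ℝ) (k : ℕ) :
    PowerSeries.mk (fun t : ℕ => ∏ j ∈ range k, ((t:ℝ) + a j)) * (1 - PowerSeries.X) ^ (k+1) =
      (H a k : PowerSeries ℝ) := by
  induction k with
  | zero =>
    simp only [range_zero, prod_empty, zero_add, pow_one, H, Polynomial.coe_one]
    exact PowerSeries.mk_one_mul_one_sub_eq_one ℝ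
  | succ k ih =>
    set G := PowerSeries.mk (fun t : ℕ => ∏ j ∈ range k, ((t:ℝ) + a j)) with hG
    have h1 : PowerSeries.mk (fun t : ℕ => ∏ j ∈ range (k+1), ((t:ℝ) + a j)) =
        PowerSeries.X * PowerSeries.derivative ℝ G + PowerSeries.C (a k) * G := by
      ext t
      rw [PowerSeries.coeff_mk, map_add, PowerSeries.coeff_C_mul, hG, PowerSeries.coeff_mk,
        prod_range_succ]
      cases t with
      | zero => simp; ring
      | succ t =>
        rw [PowerSeries.coeff_succ_X_mul, PowerSeries.coeff_derivative, PowerSeries.coeff_mk]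
        push_cast
        ring
    have h2 : PowerSeries.derivative ℝ (G * (1 - PowerSeries.X) ^ (k+1)) =
        PowerSeries.derivative ℝ G * (1 - PowerSeries.X) ^ (k+1) -
          (PowerSeries.C ((k:ℝ)+1)) * G * (1 - PowerSeries.X) ^ k := by
      rw [Derivation.leibniz, Derivation.leibniz_pow, map_sub, PowerSeries.derivative_X]
      simp only [smul_eq_mul, map_one_eq_zero, nsmul_eq_mul, Nat.add_sub_cancel, map_add, map_one,
        map_natCast, Nat.cast_add, Nat.cast_one, Derivation.map_one_eq_zero]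
      ring
    rw [h1, H, coe_step, ← ih, h2]
    rw [map_sub, map_add, map_one, map_natCast]
    ring

theorem H_good {a : ℕ → ℝ} (h0 : a 0 = 1) (m : ℕ) (ha : ∀ j, j ≤ m → 0 < a j ∧ a j ≤ 1) :
    Good m (H a (m+1)) := by
  induction m with
  | zero =>
    refine ⟨1, fun _ => 0, one_pos, fun i j _ h => absurd h (Nat.not_lt_zero _),
      fun i h => absurd h (Nat.not_lt_zero _), ?_⟩
    simp [H, step, h0]
  | succ m ih =>
    have := good_step (ha (m+1) le_rfl).1 (ha (m+1) le_rfl).2 (ih fun j hj => ha j (by omega))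
    exact this

theorem good_C_mul {m : ℕ} {h : Polynomial ℝ} (hg : Good m h) {b : ℝ} (hb : 0 < b) :
    Good m (Polynomial.C b * h) := by
  obtain ⟨c, r, hc, hr, hneg, hh⟩ := hg
  exact ⟨b * c, r, mul_pos hb hc, hr, hneg, by rw [hh, map_mul, mul_assoc]⟩

end Pool.Agent.Y239.PS
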